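import Mathlib
import Pool.Agent.Q8.TPX.Main

/-!
# MP_d69fce_al, Q2: yes

The witness is `L = 𝔤𝔩₂ ⋉ (V ⊕ V*)`, `V = ℂ²`, with the cocycle `η(v) - ξ(w)`; the central
extension has the half-derivation `x ↦ tr(x) c`.
-/

open Q8.TPX

namespace Pool.Agent.Results.MP_d69fce_al.HalfDerExtensionQ2

/-- There are a finite-dimensional complex Lie algebra `L` all of whose half-derivations are
multiples of the identity, and a 2-cocycle `ω` on `L` which is not a coboundary, such that the
central extension `L_ω` has a half-derivation which is not a multiple of the identity. -/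
theorem result : ∃ (L : Type) (_ : LieRing L) (_ : LieAlgebra ℂ L) (ω : Cocycle L),
    Module.Finite ℂ L ∧
      (∀ φ : L →ₗ[ℂ] L, IsHalfDerivation φ → ∃ c : ℂ, φ = c • LinearMap.id) ∧
      ¬ ω.IsCoboundary ∧
      ∃ φ : Ext ω →ₗ[ℂ] Ext ω, IsHalfDerivation φ ∧ ∀ c : ℂ, φ ≠ c • LinearMap.id :=
  q2

end Pool.Agent.Results.MP_d69fce_al.HalfDerExtensionQ2
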