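import Mathlib
import Pool.Agent.Q8.TPX.Main

/-!
# MP_d69fce_al, Q1: yes

The witness is `L = 𝔤𝔩₂ ⋉ (V ⊕ V*)`, `V = ℂ²`, with the cocycle `η(v) - ξ(w)`; the central
extension carries the transposed Poisson structure `x · y = tr(x) tr(y) c`.
-/

open Q8.TPX

namespace Pool.Agent.Results.MP_d69fce_al.TPExtensionQ1

/-- There are a finite-dimensional complex Lie algebra `L` whose only transposed Poisson structure
is the trivial one, and a 2-cocycle `ω` on `L` which is not a coboundary, such that the central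
extension `L_ω` has a non-trivial transposed Poisson structure. -/
theorem result : ∃ (L : Type) (_ : LieRing L) (_ : LieAlgebra ℂ L) (ω : Cocycle L),
    Module.Finite ℂ L ∧ (∀ μ : L →ₗ[ℂ] L →ₗ[ℂ] L, IsTransposedPoisson μ → μ = 0) ∧
      ¬ ω.IsCoboundary ∧
      ∃ μ : Ext ω →ₗ[ℂ] Ext ω →ₗ[ℂ] Ext ω, IsTransposedPoisson μ ∧ μ ≠ 0 :=
  q1

end Pool.Agent.Results.MP_d69fce_al.TPExtensionQ1
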